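import Pool.Agent.H9.F2.L2

/-! (E''), Claim M (section 4 of /team-store/H68_Epp.md, linear form C of /team-store/H2_EPP_SIMPL.md). -/

set_option autoImplicit false

namespace Epp

open H2INV F2 Finset

noncomputable section

/-- almost surely constant label -/
def Cst {E : Type} (Y : Fam E) : Prop := ∀ w w', 0 < Y.m w → 0 < Y.m w' → Y.J w = Y.J w'

/-- (B5') for a variable with constant label -/
def B5P : Prop :=
  ∀ (E : Type) [AddCommGroup E] [Finite E] [Two E] (X Y : Fam E), Cst Y →
    H (add X (fold Y Y)) +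
      ∑ w, (fold Y Y).m w * H (add X (add (sl (fold Y Y) w) (sl (fold Y Y) w))) ≤ 2 * H (add X Y)

/-- self sums of `c`-spread families -/
def SB (c th : ℝ) : Prop :=
  ∀ (E : Type) [AddCommGroup E] [Finite E] [Two E] (V : AddSubgroup E) (U : Fam E),
    In U V → Spr U V c → ls V - H (add U U) ≤ th * (ls V - H U)

/-- Claim M, linear form -/
def CM (A : ℝ) : Prop :=
  ∀ (E : Type) [AddCommGroup E] [Finite E] [Two E] (V : AddSubgroup E) (X Y : Fam E) (s : ℝ),
    In X V → In Y V → 0 < s → Spr X V s → ∀ t : ℝ, 0 < t →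
      ls V - H (add X Y) ≤ s * A / 2 * (ls V * t + (ls V - H Y) / t)

section

variable {E : Type} [AddCommGroup E]

lemma H_add_rs_le (X Z : Fam E) (K : AddSubgroup E) : H (add X (rs Z K)) ≤ H (add X Z) := by
  show cent (prodPM X.m Z.m) (fun w => X.X w.1 + Z.X w.2)
      (fun w => (X.J w.1, (q K (Z.X w.2), Z.J w.2))) ≤
    cent (prodPM X.m Z.m) (fun w => X.X w.1 + Z.X w.2) (fun w => (X.J w.1, Z.J w.2))
  refine cent_anti (isPM_prod X.hm Z.hm) _ fun w w' h => ?_
  simp only [Prod.mk.injEq] at h ⊢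
  exact ⟨h.1, h.2.2⟩

lemma H_add_rs_rs_le (X Z : Fam E) (K : AddSubgroup E) :
    H (add X (add (rs Z K) (rs Z K))) ≤ H (add X (add Z Z)) := by
  show cent (prodPM X.m (prodPM Z.m Z.m)) (fun w => X.X w.1 + (Z.X w.2.1 + Z.X w.2.2))
      (fun w => (X.J w.1, ((q K (Z.X w.2.1), Z.J w.2.1), (q K (Z.X w.2.2), Z.J w.2.2)))) ≤
    cent (prodPM X.m (prodPM Z.m Z.m)) (fun w => X.X w.1 + (Z.X w.2.1 + Z.X w.2.2))
      (fun w => (X.J w.1, (Z.J w.2.1, Z.J w.2.2)))
  refine cent_anti (isPM_prod X.hm (isPM_prod Z.hm Z.hm)) _ fun w w' h => ?_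
  simp only [Prod.mk.injEq] at h ⊢
  exact ⟨h.1, h.2.1.2, h.2.2.2⟩

omit [AddCommGroup E] in
lemma cst_sl (U : Fam E) {w : U.Om} (hw : 0 < U.m w) : Cst (sl U w) := by
  have key : ∀ v, 0 < (sl U w).m v → U.J v = U.J w := by
    intro v hv
    rw [sl_m U hw] at hv
    by_contra hne
    unfold condPM at hv
    rw [if_neg hne] at hv
    exact lt_irrefl _ hv
  intro v v' hv hv'
  exact (key v hv).trans (key v' hv').symm

omit [AddCommGroup E] in
/-- average inequality -/
lemma avg_le (U : Fam E) (f : U.Om → ℝ) (a : ℝ) (h : ∀ w, 0 < U.m w → f w ≤ a) :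
    ∑ w, U.m w * f w ≤ a := by
  rw [← avg_const U a]
  refine Finset.sum_le_sum fun w _ => ?_
  rcases (U.hm.nonneg w).eq_or_lt with h0 | h0
  · rw [← h0]; simp
  · exact mul_le_mul_of_nonneg_left (h w h0) h0.le

end

section

variable {E : Type} [AddCommGroup E] [Finite E]

/-- the inductive statement -/
def PM (V : AddSubgroup E) (X : Fam E) (s M : ℝ) : Prop :=
  ∀ W : AddSubgroup E, W ≤ V → ∀ Y : Fam E, In Y W → ∀ t : ℝ, 0 < t →
    ls V - H (add X Y) ≤ s * (ls V - ls W) + s * M / 2 * (ls V * t + (ls W - H Y) / t)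

lemma pm_mono {V : AddSubgroup E} {X : Fam E} {s M M' : ℝ} (hs : 0 ≤ s) (h : PM V X s M)
    (hM : M ≤ M') : PM V X s M' := by
  intro W hW Y hY t ht
  refine (h W hW Y hY t ht).trans ?_
  have h1 : 0 ≤ ls V * t + (ls W - H Y) / t := by
    have h2 := ls_nonneg V
    have h3 := H_le hY
    have h4 : 0 ≤ (ls W - H Y) / t := div_nonneg (by linarith) ht.le
    nlinarith
  have h2 : s * M / 2 ≤ s * M' / 2 := by nlinarith
  nlinarith

/-- small `t` suffices -/
lemma pm_of_le_one {V : AddSubgroup E} {X : Fam E} {s M : ℝ} (hs : 0 ≤ s) (hM : 0 ≤ M)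
    (h : ∀ W : AddSubgroup E, W ≤ V → ∀ Y : Fam E, In Y W → ∀ t : ℝ, 0 < t → t ≤ 1 →
      ls V - H (add X Y) ≤ s * (ls V - ls W) + s * M / 2 * (ls V * t + (ls W - H Y) / t)) :
    PM V X s M := by
  intro W hW Y hY t ht
  rcases le_total t 1 with h1 | h1
  · exact h W hW Y hY t ht h1
  · refine (h W hW Y hY 1 one_pos le_rfl).trans ?_
    have h2 : ls V * 1 + (ls W - H Y) / 1 ≤ ls V * t + (ls W - H Y) / t := by
      have h3 : ls W - H Y ≤ ls V := by
        have := ls_mono hW
        have := H_nonneg Y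
        linarith
      have h4 : 0 ≤ ls W - H Y := by have := H_le hY; linarith
      have h5 : (ls W - H Y) - (ls W - H Y) / t ≤ ls V * (t - 1) := by
        have h6 : (ls W - H Y) - (ls W - H Y) / t = (ls W - H Y) * (t - 1) / t := by
          field_simp
        rw [h6, div_le_iff₀ ht]
        have h7 : (ls W - H Y) * (t - 1) ≤ ls V * (t - 1) := by nlinarith
        have h8 : 0 ≤ ls V * (t - 1) := by nlinarith
        nlinarith
      rw [mul_one, div_one]
      linarith
    have h3 : 0 ≤ s * M / 2 := by positivity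
    nlinarith

lemma pm_base {V : AddSubgroup E} {X : Fam E} {s : ℝ} (hs : 0 < s) (hX : Spr X V s) :
    PM V X s (1 / s) := by
  intro W hW Y hY t ht
  -- H (X + Y) ≥ hq X W + H Y
  have h1 : hq X W + H Y ≤ H (add X Y) := by
    have h2 := H_add_ge_rs X Y W
    have h3 := H_add_right (rs X W) (rs Y W)
    have h4 : H (rs Y W) = H Y := by rw [H_rs, hh_of_In hY]; ring
    linarith
  have h2 := hX W hW
  rw [hh_eq] at h2
  have h3 : 0 ≤ ls W - H Y := by have := H_le hY; linarith
  have h4 : ls W - H Y ≤ ls V := by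
    have := ls_mono hW
    have := H_nonneg Y
    linarith
  have h5 : ls W - H Y ≤ 1 / 2 * (ls V * t + (ls W - H Y) / t) := by
    have h6 : (ls W - H Y) * (2 - 1 / t) ≤ ls V * t := by
      have h7 : 2 - 1 / t ≤ t := by
        have : 1 / t * t = 1 := by field_simp
        have h8 : 0 < 1 / t := by positivity
        nlinarith [sq_nonneg (t - 1)]
      calc (ls W - H Y) * (2 - 1 / t) ≤ (ls W - H Y) * t := mul_le_mul_of_nonneg_left h7 h3
        _ ≤ ls V * t := mul_le_mul_of_nonneg_right h4 ht.le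
    have h9 : (ls W - H Y) / t = (ls W - H Y) * (1 / t) := by ring
    rw [h9]
    linarith
  have h6 : s * (1 / s) / 2 = 1 / 2 := by field_simp
  rw [h6]
  linarith

variable [Two E]

lemma pm_step {V : AddSubgroup E} {X : Fam E} {s c M : ℝ} (hB5 : B5P) (hs : 0 < s) (hc : 0 < c)
    (hSB : SB c (1 / 16)) (hM : 5 / c ≤ M) (h : PM V X s M) : PM V X s (9 / 10 * M) := by
  have hM0 : 0 < M := lt_of_lt_of_le (by positivity) hM
  have hcM : 5 ≤ M * c := by rwa [div_le_iff₀ hc] at hM
  have hr2 : 0 < Real.sqrt 2 := by positivity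
  have hr2' : Real.sqrt 2 * Real.sqrt 2 = 2 := Real.mul_self_sqrt (by norm_num)
  have hr2l : Real.sqrt 2 ≤ 1.4143 := by
    rw [Real.sqrt_le_left (by norm_num)]; norm_num
  refine pm_of_le_one hs.le (by positivity) fun W hW Y hY t ht ht1 => ?_
  -- first the case of a constant label
  have key : ∀ Y : Fam E, In Y W → Cst Y →
      ls V - H (add X Y) ≤
        s * (ls V - ls W) + s * (9 / 10 * M) / 2 * (ls V * t + (ls W - H Y) / t) := by
    intro Y hY hC
    set Z := fold Y Y with hZ
    have hZW : In Z W := In_fold hY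
    have hHZ : 2 * H Y - ls W ≤ H Z := by
      rw [hZ, H_fold]
      have := H_le (In_add hY hY)
      linarith
    have hb := hB5 E X Y hC
    rw [← hZ] at hb
    -- slices
    have hsl : ∀ w : Z.Om, 0 < Z.m w →
        2 * ls V - (H (add X (sl Z w)) + H (add X (add (sl Z w) (sl Z w)))) ≤
          2 * s * (ls V - ls W) +
            5 / 8 * s * M * (ls V * (t * Real.sqrt 2) + (ls W - H (sl Z w)) / (t * Real.sqrt 2)) := by
      intro w _
      obtain ⟨K, hK, h1, -, h2⟩ := threshold (In_sl hZW w) c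
      set R := rs (sl Z w) K with hR
      have hRK : In R K := In_rs _ _
      have hKV : K ≤ V := hK.trans hW
      have a1 := h K hKV R hRK (t * Real.sqrt 2) (by positivity)
      have a2 := h K hKV (add R R) (In_add hRK hRK) (t * Real.sqrt 2 / 4) (by positivity)
      have a3 := hSB E K R hRK h2
      have a4 := H_add_rs_le X (sl Z w) K
      have a5 := H_add_rs_rs_le X (sl Z w) K
      rw [← hR] at a4 a5
      have a6 : H R = H (sl Z w) - hh (sl Z w) K + ls K := H_rs _ _
      have htr : 0 < t * Real.sqrt 2 := by positivity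
      set T := t * Real.sqrt 2 with hT
      have a7 : (ls K - H (add R R)) / (T / 4) ≤ (ls K - H R) / T / 4 := by
        have e1 : (ls K - H (add R R)) / (T / 4) = (ls K - H (add R R)) * (4 / T) := by
          field_simp
        have e2 : (ls K - H R) / T / 4 = (1 / 16 * (ls K - H R)) * (4 / T) := by
          field_simp; ring
        rw [e1, e2]
        exact mul_le_mul_of_nonneg_right a3 (by positivity)
      have hsM : 0 ≤ s * M / 2 := by positivity
      have a8 := mul_le_mul_of_nonneg_left a7 hsM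
      -- sigma
      set sg := ls W - hh (sl Z w) K with hsg
      have b1 : ls W - ls K ≤ sg / c := by rw [le_div_iff₀ hc]; linarith
      have b0 : 0 ≤ sg := by
        have := ls_mono hK
        have : 0 ≤ sg / c := by linarith
        have h3 : sg = sg / c * c := by field_simp
        rw [h3]; positivity
      have b2 : ls K - H R = (ls W - H (sl Z w)) - sg := by rw [a6, hsg]; ring
      have b3 : s * (ls V - ls K) ≤ s * (ls V - ls W) + s * (sg / c) := by nlinarith
      -- the coefficient of sigma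
      have b4 : 2 * s * (sg / c) ≤ 5 / 8 * s * M * (sg / T) := by
        have e1 : 2 * s * (sg / c) = s * sg * (2 / c) := by ring
        have e2 : 5 / 8 * s * M * (sg / T) = s * sg * (5 / 8 * M / T) := by ring
        rw [e1, e2]
        refine mul_le_mul_of_nonneg_left ?_ (by positivity)
        rw [div_le_div_iff₀ hc htr]
        have h5 : T ≤ 1.4143 := by
          rw [hT]
          nlinarith
        nlinarith
      have c1 : (ls K - H R) / T = (ls W - H (sl Z w)) / T - sg / T := by rw [b2, sub_div]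
      rw [c1] at a1 a8
      have e3 : s * M / 2 * (ls V * T + ((ls W - H (sl Z w)) / T - sg / T)) +
          (s * M / 2 * (ls V * (T / 4)) + s * M / 2 * (((ls W - H (sl Z w)) / T - sg / T) / 4)) =
          5 / 8 * s * M * (ls V * T + (ls W - H (sl Z w)) / T) - 5 / 8 * s * M * (sg / T) := by
        ring
      have e4 : s * M / 2 * (ls V * (T / 4) + (ls K - H (add R R)) / (T / 4)) =
          s * M / 2 * (ls V * (T / 4)) + s * M / 2 * ((ls K - H (add R R)) / (T / 4)) := by ring
      rw [e4] at a2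
      linarith
    -- average
    have havg := avg_le Z (fun w => 2 * ls V - (H (add X (sl Z w)) +
        H (add X (add (sl Z w) (sl Z w)))) -
          5 / 8 * s * M * (ls V * (t * Real.sqrt 2) + (ls W - H (sl Z w)) / (t * Real.sqrt 2)))
      (2 * s * (ls V - ls W)) fun w hw => by linarith [hsl w hw]
    have hsum : ∑ w, Z.m w * (2 * ls V - (H (add X (sl Z w)) +
        H (add X (add (sl Z w) (sl Z w)))) -
          5 / 8 * s * M * (ls V * (t * Real.sqrt 2) + (ls W - H (sl Z w)) / (t * Real.sqrt 2))) =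
        2 * ls V - (H (add X Z) + ∑ w, Z.m w * H (add X (add (sl Z w) (sl Z w)))) -
          5 / 8 * s * M * (ls V * (t * Real.sqrt 2) + (ls W - H Z) / (t * Real.sqrt 2)) := by
      have f1 : ∀ w, Z.m w * (2 * ls V - (H (add X (sl Z w)) +
        H (add X (add (sl Z w) (sl Z w)))) -
          5 / 8 * s * M * (ls V * (t * Real.sqrt 2) + (ls W - H (sl Z w)) / (t * Real.sqrt 2))) =
          Z.m w * (2 * ls V - 5 / 8 * s * M * (ls V * (t * Real.sqrt 2) +
            ls W / (t * Real.sqrt 2))) - Z.m w * H (add X (sl Z w)) -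
          Z.m w * H (add X (add (sl Z w) (sl Z w))) +
          (Z.m w * H (sl Z w)) * (5 / 8 * s * M / (t * Real.sqrt 2)) := by
        intro w; ring
      rw [Finset.sum_congr rfl fun w _ => f1 w, Finset.sum_add_distrib, Finset.sum_sub_distrib,
        Finset.sum_sub_distrib, avg_const, avg_H_add_sl', ← Finset.sum_mul, avg_H_sl]
      ring
    rw [hsum] at havg
    have htr : 0 < t * Real.sqrt 2 := by positivity
    have g1 : (ls W - H Z) / (t * Real.sqrt 2) ≤ Real.sqrt 2 * ((ls W - H Y) / t) := by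
      rw [div_le_iff₀ htr]
      have : Real.sqrt 2 * ((ls W - H Y) / t) * (t * Real.sqrt 2) =
          (Real.sqrt 2 * Real.sqrt 2) * (ls W - H Y) := by field_simp
      rw [this, hr2']
      linarith
    have g2 : 0 ≤ 5 / 8 * s * M := by positivity
    have g3 := mul_le_mul_of_nonneg_left g1 g2
    have g4 : 0 ≤ ls V * t + (ls W - H Y) / t := by
      have h2 := ls_nonneg V
      have h3 := H_le hY
      have h4 : 0 ≤ (ls W - H Y) / t := div_nonneg (by linarith) ht.le
      nlinarith
    have g5 : 5 / 8 * s * M * (Real.sqrt 2 * (ls V * t + (ls W - H Y) / t)) ≤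
        s * (9 / 10 * M) * (ls V * t + (ls W - H Y) / t) := by
      have : 5 / 8 * s * M * Real.sqrt 2 ≤ s * (9 / 10 * M) := by
        have hsM : 0 ≤ s * M := by positivity
        nlinarith
      nlinarith
    have g6 : 5 / 8 * s * M * (ls V * (t * Real.sqrt 2) + (ls W - H Z) / (t * Real.sqrt 2)) =
      5 / 8 * s * M * (Real.sqrt 2 * (ls V * t)) +
        5 / 8 * s * M * ((ls W - H Z) / (t * Real.sqrt 2)) := by ring
    have g7 : 5 / 8 * s * M * (Real.sqrt 2 * (ls V * t + (ls W - H Y) / t)) =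
        5 / 8 * s * M * (Real.sqrt 2 * (ls V * t)) +
          5 / 8 * s * M * (Real.sqrt 2 * ((ls W - H Y) / t)) := by ring
    rw [g6] at havg
    rw [g7] at g5
    linarith
  -- average over the label
  have havg := avg_le Y (fun w => ls V - H (add X (sl Y w)) -
      s * (9 / 10 * M) / 2 * (ls V * t + (ls W - H (sl Y w)) / t))
    (s * (ls V - ls W)) fun w hw => by linarith [key (sl Y w) (In_sl hY w) (cst_sl Y hw)]
  have hsum : ∑ w, Y.m w * (ls V - H (add X (sl Y w)) -
      s * (9 / 10 * M) / 2 * (ls V * t + (ls W - H (sl Y w)) / t)) =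
      ls V - H (add X Y) - s * (9 / 10 * M) / 2 * (ls V * t + (ls W - H Y) / t) := by
    have f1 : ∀ w, Y.m w * (ls V - H (add X (sl Y w)) -
      s * (9 / 10 * M) / 2 * (ls V * t + (ls W - H (sl Y w)) / t)) =
        Y.m w * (ls V - s * (9 / 10 * M) / 2 * (ls V * t + ls W / t)) -
        Y.m w * H (add X (sl Y w)) + (Y.m w * H (sl Y w)) * (s * (9 / 10 * M) / 2 / t) := by
      intro w; ring
    rw [Finset.sum_congr rfl fun w _ => f1 w, Finset.sum_add_distrib, Finset.sum_sub_distrib,
      avg_const, avg_H_add_sl', ← Finset.sum_mul, avg_H_sl]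
    ring
  rw [hsum] at havg
  linarith

end

/-- Claim M -/
theorem cm_of (hB5 : B5P) {c : ℝ} (hc : 0 < c) (hSB : SB c (1 / 16)) : CM (5 / c) := by
  intro E _ _ _ V X Y s hX hY hs hsp t ht
  have hit : ∀ k : ℕ, PM V X s (max (5 / c) ((9 / 10) ^ k * (1 / s))) := by
    intro k
    induction k with
    | zero =>
      rw [pow_zero, one_mul]
      exact pm_mono hs.le (pm_base hs hsp) (le_max_right _ _)
    | succ k ih =>
      rcases le_total (5 / c) ((9 / 10) ^ k * (1 / s)) with h1 | h1
      · rw [max_eq_right h1] at ih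
        have h2 := pm_step hB5 hs hc hSB h1 ih
        refine pm_mono hs.le h2 (le_trans (le_of_eq ?_) (le_max_right _ _))
        rw [pow_succ]; ring
      · rw [max_eq_left h1] at ih
        exact pm_mono hs.le ih (le_max_left _ _)
  obtain ⟨k, hk⟩ := exists_pow_lt_of_lt_one (show 0 < 5 / c * s by positivity)
    (show (9 / 10 : ℝ) < 1 by norm_num)
  have h1 : (9 / 10 : ℝ) ^ k * (1 / s) ≤ 5 / c := by
    rw [mul_one_div, div_le_iff₀ hs]; exact hk.le
  have h2 := hit k
  rw [max_eq_left h1] at h2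
  have h3 := h2 V le_rfl Y hY t ht
  rw [sub_self, mul_zero, zero_add] at h3
  exact h3

end

end Epp
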