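import Pool.Agent.H68.F2.Glue
import Pool.Agent.H41.F2.StepIII
import Pool.Agent.H54.F2.B5

/-! The linear inverse theorem (E''). -/

set_option autoImplicit false

namespace Epp

open H2INV F2 Finset

noncomputable section

theorem b5p : B5P := by
  intro E _ _ _ X Y _
  have := F2.B5_self X Y
  linarith

theorem b5III : F2.III.B5 := fun _ _ _ _ X Y _ => F2.B5_self X Y

theorem hypIII {a l : ℝ} (h : F2.B.Hyp a l) : F2.III.Hyp a l :=
  fun E _ _ _ V X Y x hx hX hY he hs => h E V X Y x hx hX hY hs he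

theorem hypB {a l : ℝ} (h : F2.III.Hyp a l) : F2.B.Hyp a l :=
  fun E _ _ _ V X Y x hx hX hY hs he => h E V X Y x hx hX hY he hs

theorem lemAIII : F2.III.LemA :=
  fun _ _ ha hl h E _ _ _ V X Y _ y _ hy hX hY _ hs =>
    F2.B.lemmaA' ha hl (hypB h) E V X Y y hy hX hY hs

theorem lemBIII : F2.III.LemB := by
  intro a l _ _ hmaj E _ _ _ V X Z x hx hX hZ hs
  exact F2.B.lemmaB' (lb := F2.III.LL) (fun E _ _ _ V X Z z _ _ hX hZ hs =>
      F2.III.VA_LL z E V X Z hX hZ hs)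
    (fun z _ _ => F2.III.LL_nonneg z) (fun z z' _ h _ => F2.III.LL_mono h) hmaj E V X Z x hx hX hZ hs

/-- (E''): `D(X + W) ≤ C s D(W)` for `s`-spread `X`. -/
theorem epp_final : ∃ C : ℝ, 1 ≤ C ∧ F2.B.EPP C := by
  obtain ⟨A, hA, hM⟩ := cm_hyp b5p
  refine ⟨144 * A ^ 2, by nlinarith, F2.III.epp hA (fun t ht => hypIII (hM t ht)) b5III lemAIII lemBIII⟩

end

end Epp
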