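import Pool.Agent.H68.F2.CM
import Pool.Agent.H83.F2.StepI
import Pool.Agent.H96.F2.HN2

/-! Claim M in the form used in Step III. -/

set_option autoImplicit false

namespace Epp

open H2INV F2 Finset

noncomputable section

theorem sb_exists : ∃ c : ℝ, 0 < c ∧ SB c (1 / 16) := by
  obtain ⟨c, hc, h⟩ := stepI
  exact ⟨c, hc, fun E _ _ _ V U hU hs => h E U V hU hs⟩

theorem hyp_of_cm {A : ℝ} (hA : CM A) {t : ℝ} (ht : 0 < t) :
    F2.B.Hyp (A * t / 2) (A / (2 * t)) := by
  intro E _ _ _ V X Y x hx hX hY hs _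
  rcases hx.eq_or_lt with h0 | h0
  · rw [← h0] at hs ⊢
    have h1 := hs ⊥ bot_le
    rw [hh_bot, zero_mul] at h1
    have h2 := H_add_left X Y
    rw [zero_mul]
    linarith
  · have h1 := hA E V X Y x hX hY h0 hs t ht
    refine h1.trans (le_of_eq ?_)
    field_simp

theorem cm_hyp (hB5 : B5P) : ∃ A : ℝ, 1 ≤ A ∧ ∀ t : ℝ, 0 < t → F2.B.Hyp (A * t / 2) (A / (2 * t)) := by
  obtain ⟨c, hc, h⟩ := sb_exists
  have hc' : 0 < min c 1 := lt_min hc one_pos
  have h' : SB (min c 1) (1 / 16) := fun E _ _ _ V U hU hs => h E V U hU fun W hW =>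
    (hs W hW).trans (mul_le_mul_of_nonneg_right (min_le_left _ _) (by
      have := ls_mono hW; linarith))
  refine ⟨5 / min c 1, ?_, fun t ht => hyp_of_cm (cm_of hB5 hc' h') ht⟩
  rw [le_div_iff₀ hc']
  have := min_le_right c 1
  linarith

end

end Epp
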